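import Pool.Agent.TH977.PW.Inst
import Pool.Agent.Y677.RSZ.FinInst

set_option autoImplicit false

/-!
# Narrow progressions of regular representations by shifted primes and almost primes

Let `x ≠ 1` be any positive rational number and `u = -1` or `u = 1`.  The representations
`x = (P - u) / (Q - u)` (that is `(P + 1) / (Q + 1)` or `(P - 1) / (Q - 1)`) with primes `P, Q` are the pairs
`P = x.num * k + u`, `Q = x.den * k + u`, `k ≥ 1`.  Call `k` *rough* if neither of the two numbers has a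
prime factor `≤ k ^ (1 / r)`; this holds for all representations with `k ≥ 3`.  For all large `r`:

(1) Almost primes: a positive proportion of the expected number of the `k`, in all intervals
`(X, X + Y]`, `X ^ θ ≤ Y ≤ X / 2`, are terms of `l`-term arithmetic progressions of regular rough `k` for
which the two numbers have at most `r` prime factors, for all `l`, with differences `≤ (log X) ^ D`.

(2) Let `A` be an ARBITRARY set of rough `k` (for instance ALL representations of `x` with `k ≥ 3`).  For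
all `l ≥ 2`, `ε > 0`, all large `X` and all `Y` with `X ^ θ ≤ Y ≤ X / 2` all but `ε Y / log ^ 2 X` of the
elements of `A` in `(X, X + Y]` are terms of `l`-term arithmetic progressions, with difference at most a
fixed power of `log X`, which consist of regular points of `A` in `(X, X + Y]`.

The parts are the library theorems `Pool.Agent.Y677.RSZ.narrow_lin` (narrow progressions) and
`Pool.Agent.TH977.PW.final_lin` (regular points).
-/

open Finset Filter

namespace Pool.Agent.Results.MP_81c801_nt.NarrowProgressions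

/-- representations of `x`: `u = -1` is the form `(P + 1) / (Q + 1)`, `u = 1` the form `(P - 1) / (Q - 1)` -/
def IsRep (u : ℤ) (x : ℚ) (P Q : ℕ) : Prop :=
  P.Prime ∧ Q.Prime ∧ x = ((P : ℚ) - u) / ((Q : ℚ) - u)

/-- the first number -/
def num (u : ℤ) (x : ℚ) (k : ℕ) : ℤ := x.num * k + u

/-- the second number -/
def den (u : ℤ) (x : ℚ) (k : ℕ) : ℤ := x.den * k + u

/-- none of the two numbers has a prime factor `p ≤ k ^ (1 / r)` -/
def Rough (u : ℤ) (x : ℚ) (r k : ℕ) : Prop :=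
  ∀ p : ℕ, p.Prime → (p : ℤ) ∣ num u x k ∨ (p : ℤ) ∣ den u x k → (k : ℝ) ^ (1 / (r : ℝ)) < (p : ℝ)

/-- `k` is rough and the two numbers have at most `r` prime factors (with multiplicity) -/
def Good (u : ℤ) (x : ℚ) (r : ℕ) : Set ℕ :=
  {k | Rough u x r k ∧ (num u x k).natAbs.primeFactorsList.length ≤ r ∧
    (den u x k).natAbs.primeFactorsList.length ≤ r}

open Classical in
/-- the number of elements of `A` in `(a, b]` -/
noncomputable def cnt (A : Set ℕ) (a b : ℕ) : ℕ := ((Ioc a b).filter (fun m => m ∈ A)).card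

/-- All intervals `(m - s, m + t]` with `s, t ≤ Y` of length at least `log ^ 2 X / c` contain the
right order of elements of `A`. -/
def RightOrder (A : Set ℕ) (c : ℝ) (X Y m : ℕ) : Prop :=
  ∀ s t : ℕ, s ≤ Y → t ≤ Y → Real.log X ^ 2 ≤ c * (s + t) →
    c * (s + t) / Real.log X ^ 2 ≤ cnt A (m - s) (m + t) ∧
      (cnt A (m - s) (m + t) : ℝ) ≤ (s + t) / (c * Real.log X ^ 2)

/-- Up to `δ`, `A` has a constant density on both sides of `m` up to the distance `2 ^ j`. -/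
def ConstantDensity (A : Set ℕ) (c δ : ℝ) (X m j : ℕ) : Prop :=
  ∃ lam : ℝ, c ≤ lam ∧ lam ≤ 1 / c ∧ ∀ s t : ℕ, s ≤ 2 ^ j → t ≤ 2 ^ j →
    |(cnt A (m - s) (m + t) : ℝ) - lam * (s + t) / Real.log X ^ 2| ≤ δ * 2 ^ j / Real.log X ^ 2

open Classical in
/-- `m` is a regular point of `A`: `RightOrder`, and `ConstantDensity` at all but `B` of the scales
`log ^ 2 X ≤ 2 ^ j ≤ Y`. -/
def Regular (A : Set ℕ) (c δ : ℝ) (B X Y m : ℕ) : Prop :=
  RightOrder A c X Y m ∧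
    ((Finset.range (Nat.log 2 Y + 1)).filter (fun j => Real.log X ^ 2 ≤ (2 : ℝ) ^ j ∧
      ¬ ConstantDensity A c δ X m j)).card ≤ B

/-- the regular points of `A` -/
def RegularPoints (A : Set ℕ) (c δ : ℝ) (B X Y : ℕ) : Set ℕ :=
  {m | m ∈ A ∧ Regular A c δ B X Y m}

/-- `m` is a term of an `l`-term arithmetic progression, with a difference `d`, `1 ≤ d ≤ D`, of
elements of `S` in `(a, b]`. -/
def InProgression (S : Set ℕ) (l : ℕ) (D : ℝ) (a b m : ℕ) : Prop :=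
  ∃ u d : ℕ, 1 ≤ d ∧ (d : ℝ) ≤ D ∧ (∀ i < l, u + i * d ∈ S ∧ a < u + i * d ∧ u + i * d ≤ b) ∧
    ∃ i < l, m = u + i * d

/-! ### proofs -/

/-- coefficients -/
def ca (x : ℚ) : Fin 2 → ℕ := ![x.num.natAbs, x.den]

/-- coefficients -/
def cb (u : ℤ) : Fin 2 → ℤ := ![u, u]

lemma ca_zero (x : ℚ) (hx : 0 < x) : ((ca x 0 : ℕ) : ℤ) = x.num := by
  have h := Rat.num_pos.2 hx
  simp only [ca, Matrix.cons_val_zero]
  omega

lemma ca_one (x : ℚ) : ((ca x 1 : ℕ) : ℤ) = (x.den : ℤ) := by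
  simp [ca]

lemma form_zero (u : ℤ) (x : ℚ) (hx : 0 < x) (m : ℕ) :
    ((ca x 0 : ℕ) : ℤ) * (m : ℤ) + cb u 0 = num u x m := by
  rw [ca_zero x hx]
  rfl

lemma form_one (u : ℤ) (x : ℚ) (m : ℕ) :
    ((ca x 1 : ℕ) : ℤ) * (m : ℤ) + cb u 1 = den u x m := by
  rw [ca_one x]
  rfl

lemma ca_pos (x : ℚ) (hx : 0 < x) (i : Fin 2) : 0 < ca x i := by
  have h := Rat.num_pos.2 hx
  fin_cases i
  · show 0 < x.num.natAbs
    omega
  · exact x.den_pos

lemma cop (u : ℤ) (hu : u = -1 ∨ u = 1) (x : ℚ) (i : Fin 2) :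
    IsCoprime ((ca x i : ℕ) : ℤ) (cb u i) := by
  have h : cb u i = u := by fin_cases i <;> rfl
  rw [h]
  rcases hu with rfl | rfl
  · exact isCoprime_one_right.neg_right
  · exact isCoprime_one_right

lemma ne_coef (x : ℚ) (hx : 0 < x) (hx1 : x ≠ 1) : x.num.natAbs ≠ x.den := by
  intro h
  apply hx1
  have h1 := Rat.num_pos.2 hx
  have h2 : x.num = (x.den : ℤ) := by omega
  have h3 := Rat.num_div_den x
  rw [h2] at h3
  rw [← h3]
  have h4 : ((x.den : ℤ) : ℚ) = (x.den : ℚ) := by push_cast; rfl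
  rw [h4]
  exact div_self (by exact_mod_cast x.den_pos.ne')

lemma inj (x : ℚ) (hx : 0 < x) (hx1 : x ≠ 1) (i j : Fin 2) (h : ca x i = ca x j) : i = j := by
  have hne := ne_coef x hx hx1
  fin_cases i <;> fin_cases j
  · rfl
  · exact absurd h hne
  · exact absurd h.symm hne
  · rfl

lemma not_dvd (u : ℤ) (hu : u = -1 ∨ u = 1) (p : ℕ) (hp : p.Prime) : ¬ (p : ℤ) ∣ u := by
  intro h
  have h1 := Int.natAbs_dvd_natAbs.2 h
  have h2 : u.natAbs = 1 := by rcases hu with rfl | rfl <;> rfl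
  rw [h2, Int.natAbs_natCast] at h1
  exact hp.one_lt.ne' (Nat.dvd_one.1 h1)

open Classical in
/-- the statement for arbitrary sets of rough numbers, and the lower bound -/
lemma general (x : ℚ) (hx : 0 < x) (hx1 : x ≠ 1) (u : ℤ) (hu : u = -1 ∨ u = 1)
    (θ : ℝ) (hθ : 0 < θ) (hθ1 : θ ≤ 1) :
    ∃ r0 : ℕ, 2 ≤ r0 ∧ ∀ r : ℕ, r0 ≤ r →
      (∃ κ : ℝ, 0 < κ ∧ ∀ᶠ X : ℕ in atTop, ∀ Y : ℕ, (X : ℝ) ^ θ ≤ Y → Y ≤ X →
        κ * Y / Real.log X ^ 2 ≤ cnt (Good u x r) X (X + Y)) ∧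
      ∀ ε : ℝ, 0 < ε → ∃ c : ℝ, 0 < c ∧ ∀ δ : ℝ, 0 < δ → ∃ B : ℕ, ∀ l : ℕ, 2 ≤ l → ∃ D : ℕ,
        ∀ᶠ X : ℕ in atTop, ∀ Y : ℕ, (X : ℝ) ^ θ ≤ Y → 2 * Y ≤ X →
          ∀ A : Set ℕ, (∀ m ∈ A, Rough u x r m) →
            (((Ioc X (X + Y)).filter (fun m : ℕ => m ∈ A ∧
              ¬ InProgression (RegularPoints A c δ B X Y) l (Real.log X ^ D) X (X + Y) m)).card : ℝ) ≤
              ε * (Y / Real.log X ^ 2) := by
  have hadm : ∀ p : ℕ, p.Prime → ∃ m : ℕ, ∀ i, ¬ (p : ℤ) ∣ ((ca x i : ℕ) : ℤ) * (m : ℤ) + cb u i := by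
    intro p hp
    refine ⟨0, fun i => ?_⟩
    have h : cb u i = u := by fin_cases i <;> rfl
    rw [h, Nat.cast_zero, mul_zero, zero_add]
    exact not_dvd u hu p hp
  have hR : ∀ r m : ℕ, 2 ≤ r → m ∈ {m | Rough u x r m} → ∀ i, ∀ p : ℕ, p.Prime →
      (p : ℤ) ∣ ((ca x i : ℕ) : ℤ) * (m : ℤ) + cb u i → (m : ℝ) ^ (1 / (r : ℝ)) < (p : ℝ) := by
    intro r m _ hm i p hp hd
    have hi01 : i = 0 ∨ i = 1 := by omega
    rcases hi01 with rfl | rfl
    · rw [form_zero u x hx] at hd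
      exact hm p hp (Or.inl hd)
    · rw [form_one] at hd
      exact hm p hp (Or.inr hd)
  have hAl : ∀ r m : ℕ, 2 ≤ r → (∀ i, ∀ p : ℕ, p.Prime →
      (p : ℤ) ∣ ((ca x i : ℕ) : ℤ) * (m : ℤ) + cb u i → (m : ℝ) ^ (1 / (r : ℝ)) < (p : ℝ)) →
      (∀ i, (((ca x i : ℕ) : ℤ) * (m : ℤ) + cb u i).natAbs.primeFactorsList.length ≤ r) →
      m ∈ Good u x r := by
    intro r m _ h1 h2
    refine ⟨fun p hp hd => ?_, ?_, ?_⟩
    · rcases hd with hd | hd
      · exact h1 0 p hp (by rw [form_zero u x hx]; exact hd)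
      · exact h1 1 p hp (by rw [form_one]; exact hd)
    · have := h2 0
      rwa [form_zero u x hx] at this
    · have := h2 1
      rwa [form_one] at this
  obtain ⟨r1, hr1, hfin⟩ := Pool.Agent.TH977.PW.final_lin (ι := Fin 2) (ca x) (cb u) (ca_pos x hx)
    (cop u hu x) (fun i j h _ => inj x hx hx1 i j h) hadm (fun r => {m | Rough u x r m}) (Good u x) 2 (by simp) hR hAl θ hθ hθ1
  obtain ⟨r2, hr2, hnar⟩ := Pool.Agent.Y677.RSZ.narrow_lin (ι := Fin 2) (ca x) (cb u) (ca_pos x hx)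
    (cop u hu x) (fun i j h _ => inj x hx hx1 i j h) hadm (fun r => {m | Rough u x r m}) (Good u x) 2 (by simp) hR hAl θ hθ hθ1
  refine ⟨max r1 r2, hr1.trans (le_max_left _ _), fun r hr => ?_⟩
  obtain ⟨-, h1⟩ := hfin r ((le_max_left _ _).trans hr)
  obtain ⟨hlow, h2⟩ := hnar r ((le_max_right _ _).trans hr)
  refine ⟨hlow, fun ε hε => ?_⟩
  obtain ⟨c, hc0, h3⟩ := h1 (ε / 2) (by positivity)
  refine ⟨c, hc0, fun δ hδ => ?_⟩
  obtain ⟨B, h4⟩ := h3 δ hδ
  refine ⟨B, fun l hl => ?_⟩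
  obtain ⟨D, hD⟩ := h2 l hl (ε / 2) (by positivity)
  refine ⟨D, ?_⟩
  filter_upwards [h4, hD] with X h6 h7
  intro Y hXY hYX A hA
  have h8 := h6 Y hXY hYX A (fun m hm => hA m hm)
  have h9 := h7 Y hXY (by omega) (RegularPoints A c δ B X Y) (fun m hm => hA m hm.1)
  have hreg : ∀ m, m ∈ A → m ∉ Pool.Agent.TH977.PW.Irregular A 2 c δ B X Y →
      m ∈ RegularPoints A c δ B X Y := by
    intro m hmA hm
    refine ⟨hmA, ?_⟩
    by_contra hcon
    exact hm ⟨hmA, hcon⟩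
  have hsub : (Ioc X (X + Y)).filter (fun m : ℕ => m ∈ A ∧
      ¬ InProgression (RegularPoints A c δ B X Y) l (Real.log X ^ D) X (X + Y) m) ⊆
      (Ioc X (X + Y)).filter (fun m : ℕ => m ∈ Pool.Agent.TH977.PW.Irregular A 2 c δ B X Y) ∪
      (Ioc X (X + Y)).filter (fun m : ℕ => m ∈ Pool.Agent.Y677.RSZ.Outside
        (RegularPoints A c δ B X Y) l (Real.log X ^ D) X (X + Y)) := by
    intro m hm
    rw [mem_filter] at hm
    rw [mem_union, mem_filter, mem_filter]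
    by_cases hi : m ∈ Pool.Agent.TH977.PW.Irregular A 2 c δ B X Y
    · left
      exact ⟨hm.1, hi⟩
    · right
      exact ⟨hm.1, hreg m hm.2.1 hi, hm.2.2⟩
  have hcard := (Finset.card_le_card hsub).trans (Finset.card_union_le _ _)
  have hcard' : (((Ioc X (X + Y)).filter (fun m : ℕ => m ∈ A ∧
      ¬ InProgression (RegularPoints A c δ B X Y) l (Real.log X ^ D) X (X + Y) m)).card : ℝ) ≤
      ((Pool.Agent.TH977.PW.N (Pool.Agent.TH977.PW.Irregular A 2 c δ B X Y) X (X + Y) : ℕ) : ℝ) +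
      ((Pool.Agent.TH977.PW.N (Pool.Agent.Y677.RSZ.Outside
        (RegularPoints A c δ B X Y) l (Real.log X ^ D) X (X + Y)) X (X + Y) : ℕ) : ℝ) := by
    unfold Pool.Agent.TH977.PW.N
    exact_mod_cast hcard
  rw [mul_div_assoc] at h8 h9
  linarith [hcard', h8, h9]

/-- the representations -/
theorem rep_iff (x : ℚ) (hx : 0 < x) (u : ℤ) (hu : u = -1 ∨ u = 1) (P Q : ℕ) :
    IsRep u x P Q ↔ P.Prime ∧ Q.Prime ∧ ∃ k : ℕ, 1 ≤ k ∧ (P : ℤ) = num u x k ∧ (Q : ℤ) = den u x k := by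
  have hnum := Rat.num_pos.2 hx
  have hden := x.den_pos
  have hxe := Rat.num_div_den x
  constructor
  · rintro ⟨hP, hQ, he⟩
    refine ⟨hP, hQ, ?_⟩
    have hQ2 := hQ.two_le
    have hQu : 0 < (Q : ℤ) - u := by rcases hu with rfl | rfl <;> omega
    have hQu' : ((Q : ℚ) - u) ≠ 0 := by
      have : (0 : ℚ) < (((Q : ℤ) - u : ℤ) : ℚ) := by exact_mod_cast hQu
      push_cast at this
      exact this.ne'
    have hdenQ : (x.den : ℚ) ≠ 0 := by exact_mod_cast hden.ne'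
    have h1 : x.num * ((Q : ℤ) - u) = x.den * ((P : ℤ) - u) := by
      have h2 : (x.num : ℚ) * ((Q : ℚ) - u) = (x.den : ℚ) * ((P : ℚ) - u) := by
        have h3 : (x.num : ℚ) / (x.den : ℚ) = ((P : ℚ) - u) / ((Q : ℚ) - u) := by rw [hxe, ← he]
        rw [div_eq_div_iff hdenQ hQu'] at h3
        linarith
      exact_mod_cast h2
    have hcop : IsCoprime (x.den : ℤ) x.num := by
      rw [Int.isCoprime_iff_gcd_eq_one]
      have := x.reduced
      rw [Nat.Coprime, Nat.gcd_comm] at this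
      simpa [Int.gcd] using this
    have hd : (x.den : ℤ) ∣ (Q : ℤ) - u := by
      apply hcop.dvd_of_dvd_mul_left
      rw [h1]
      exact Dvd.intro _ rfl
    obtain ⟨k, hk⟩ := hd
    have hdz : (0 : ℤ) < x.den := by exact_mod_cast hden
    have hk0 : 0 < k := by
      by_contra hcon
      have : (x.den : ℤ) * k ≤ 0 := mul_nonpos_of_nonneg_of_nonpos hdz.le (by omega)
      omega
    have hP1 : (P : ℤ) - u = x.num * k := by
      rw [hk] at h1
      have : (x.den : ℤ) * (x.num * k) = x.den * ((P : ℤ) - u) := by rw [← h1]; ring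
      exact (mul_left_cancel₀ hdz.ne' this).symm
    refine ⟨k.toNat, by omega, ?_, ?_⟩
    · unfold num
      rw [Int.toNat_of_nonneg hk0.le]
      linarith
    · unfold den
      rw [Int.toNat_of_nonneg hk0.le]
      linarith
  · rintro ⟨hP, hQ, k, hk, h1, h2⟩
    refine ⟨hP, hQ, ?_⟩
    have e1 : ((P : ℚ) - u) = x.num * k := by
      have : ((P : ℤ) : ℚ) = ((num u x k : ℤ) : ℚ) := by rw [h1]
      unfold num at this
      push_cast at this
      linarith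
    have e2 : ((Q : ℚ) - u) = x.den * k := by
      have : ((Q : ℤ) : ℚ) = ((den u x k : ℤ) : ℚ) := by rw [h2]
      unfold den at this
      push_cast at this
      linarith
    have hk' : (k : ℚ) ≠ 0 := by exact_mod_cast (by omega : k ≠ 0)
    rw [e1, e2, mul_div_mul_right _ _ hk', hxe]

/-- the representations are rough -/
theorem rough_rep (x : ℚ) (hx : 0 < x) (u : ℤ) (hu : u = -1 ∨ u = 1) (r k : ℕ) (hr : 2 ≤ r)
    (hk : 3 ≤ k) (hP : (num u x k).natAbs.Prime) (hQ : (den u x k).natAbs.Prime) :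
    Rough u x r k := by
  have hnum := Rat.num_pos.2 hx
  have hden := x.den_pos
  have hk3 : (3 : ℝ) ≤ k := by exact_mod_cast hk
  have hr2 : (2 : ℝ) ≤ r := by exact_mod_cast hr
  have hroot : (k : ℝ) ^ (1 / (r : ℝ)) < (k : ℝ) - 1 := by
    have h1 : (k : ℝ) ^ (1 / (r : ℝ)) ≤ (k : ℝ) ^ (1 / 2 : ℝ) := by
      apply Real.rpow_le_rpow_of_exponent_le (by linarith)
      exact one_div_le_one_div_of_le (by norm_num) hr2
    refine lt_of_le_of_lt h1 ?_
    rw [← Real.sqrt_eq_rpow, Real.sqrt_lt' (by linarith)]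
    nlinarith
  have h1 : (k : ℤ) - 1 ≤ num u x k := by
    unfold num
    have : (1 : ℤ) * k ≤ x.num * k := mul_le_mul_of_nonneg_right (by omega) (by omega)
    rcases hu with rfl | rfl <;> linarith
  have h2 : (k : ℤ) - 1 ≤ den u x k := by
    unfold den
    have : (1 : ℤ) * k ≤ (x.den : ℤ) * k := mul_le_mul_of_nonneg_right (by omega) (by omega)
    rcases hu with rfl | rfl <;> linarith
  have key : ∀ z : ℤ, (k : ℤ) - 1 ≤ z → z.natAbs.Prime → ∀ p : ℕ, p.Prime → (p : ℤ) ∣ z →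
      (k : ℝ) ^ (1 / (r : ℝ)) < (p : ℝ) := by
    intro z hz hzp p hp hd
    have h3 : p ∣ z.natAbs := by
      have := Int.natAbs_dvd_natAbs.2 hd
      rwa [Int.natAbs_natCast] at this
    have h4 : p = z.natAbs := (Nat.prime_dvd_prime_iff_eq hp hzp).1 h3
    have h5 : (k : ℤ) - 1 ≤ (p : ℤ) := by omega
    have h6 : (k : ℝ) - 1 ≤ (p : ℝ) := by exact_mod_cast h5
    linarith
  intro p hp hd
  rcases hd with hd | hd
  · exact key _ h1 hP p hp hd
  · exact key _ h2 hQ p hp hd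

open Classical in
/-- **Narrow progressions of regular representations, all positive rationals.** -/
theorem result (x : ℚ) (hx : 0 < x) (hx1 : x ≠ 1) (u : ℤ) (hu : u = -1 ∨ u = 1)
    (θ : ℝ) (hθ : 0 < θ) (hθ1 : θ ≤ 1) :
    (∀ P Q : ℕ, IsRep u x P Q ↔
      P.Prime ∧ Q.Prime ∧ ∃ k : ℕ, 1 ≤ k ∧ (P : ℤ) = num u x k ∧ (Q : ℤ) = den u x k) ∧
    (∀ r k : ℕ, 2 ≤ r → 3 ≤ k → (num u x k).natAbs.Prime → (den u x k).natAbs.Prime →
      Rough u x r k) ∧
    ∃ r0 : ℕ, 2 ≤ r0 ∧ ∀ r : ℕ, r0 ≤ r →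
      (∃ c κ : ℝ, 0 < c ∧ 0 < κ ∧ ∀ δ : ℝ, 0 < δ → ∃ B : ℕ, ∀ l : ℕ, 2 ≤ l → ∃ D : ℕ,
        ∀ᶠ X : ℕ in atTop, ∀ Y : ℕ, (X : ℝ) ^ θ ≤ Y → 2 * Y ≤ X →
          κ * (Y / Real.log X ^ 2) ≤ (((Ioc X (X + Y)).filter (fun m : ℕ =>
            InProgression (RegularPoints (Good u x r) c δ B X Y) l (Real.log X ^ D) X
              (X + Y) m)).card : ℝ)) ∧
      ∀ ε : ℝ, 0 < ε → ∃ c : ℝ, 0 < c ∧ ∀ δ : ℝ, 0 < δ → ∃ B : ℕ, ∀ l : ℕ, 2 ≤ l → ∃ D : ℕ,
        ∀ᶠ X : ℕ in atTop, ∀ Y : ℕ, (X : ℝ) ^ θ ≤ Y → 2 * Y ≤ X →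
          ∀ A : Set ℕ, (∀ m ∈ A, Rough u x r m) →
            (((Ioc X (X + Y)).filter (fun m : ℕ => m ∈ A ∧
              ¬ InProgression (RegularPoints A c δ B X Y) l (Real.log X ^ D) X (X + Y) m)).card : ℝ) ≤
              ε * (Y / Real.log X ^ 2) := by
  refine ⟨rep_iff x hx u hu, rough_rep x hx u hu, ?_⟩
  obtain ⟨r0, hr0, h⟩ := general x hx hx1 u hu θ hθ hθ1
  refine ⟨r0, hr0, fun r hr => ⟨?_, (h r hr).2⟩⟩
  obtain ⟨⟨κ, hκ, hlow⟩, h1⟩ := h r hr
  obtain ⟨c, hc, h2⟩ := h1 (κ / 2) (by positivity)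
  refine ⟨c, κ / 2, hc, by positivity, fun δ hδ => ?_⟩
  obtain ⟨B, h3⟩ := h2 δ hδ
  refine ⟨B, fun l hl => ?_⟩
  obtain ⟨D, h4⟩ := h3 l hl
  refine ⟨D, ?_⟩
  filter_upwards [hlow, h4] with X h5 h6
  intro Y hXY hYX
  have h7 := h5 Y hXY (by omega)
  have h8 := h6 Y hXY hYX (Good u x r) (fun m hm => hm.1)
  have hsub : (Ioc X (X + Y)).filter (fun m : ℕ => m ∈ Good u x r) ⊆
      (Ioc X (X + Y)).filter (fun m : ℕ =>
        InProgression (RegularPoints (Good u x r) c δ B X Y) l (Real.log X ^ D) X (X + Y) m) ∪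
      (Ioc X (X + Y)).filter (fun m : ℕ => m ∈ Good u x r ∧
        ¬ InProgression (RegularPoints (Good u x r) c δ B X Y) l (Real.log X ^ D) X (X + Y) m) := by
    intro m hm
    rw [mem_filter] at hm
    rw [mem_union, mem_filter, mem_filter]
    by_cases hi : InProgression (RegularPoints (Good u x r) c δ B X Y) l (Real.log X ^ D) X (X + Y) m
    · left
      exact ⟨hm.1, hi⟩
    · right
      exact ⟨hm.1, hm.2, hi⟩
  have hcard := (Finset.card_le_card hsub).trans (Finset.card_union_le _ _)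
  have hcard' : ((cnt (Good u x r) X (X + Y) : ℕ) : ℝ) ≤
      (((Ioc X (X + Y)).filter (fun m : ℕ =>
        InProgression (RegularPoints (Good u x r) c δ B X Y) l (Real.log X ^ D) X (X + Y) m)).card : ℝ) +
      (((Ioc X (X + Y)).filter (fun m : ℕ => m ∈ Good u x r ∧
        ¬ InProgression (RegularPoints (Good u x r) c δ B X Y) l (Real.log X ^ D) X
          (X + Y) m)).card : ℝ) := by
    unfold cnt
    exact_mod_cast hcard
  rw [mul_div_assoc] at h7
  linarith [hcard', h7, h8]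

end Pool.Agent.Results.MP_81c801_nt.NarrowProgressions
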